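import Pool.Agent.Helper5.FRD.Goals

/-!
# Packet FRD-PMF (MP_79b960_co): solutions with one vertex of `Y` on every odd circuit
-/

set_option autoImplicit false

namespace Pool.Agent.Helper14.FRD.PMF

open Finset Pool.Agent.Helper5.FRC Pool.Agent.Helper5.FRD

theorem t (h1 : NprStmt) (h2 : FinStmt) : PmfStmt := by
  intro V _ _ n A t C Z h5 q Y hYA hH hx
  have h5' := h5
  obtain ⟨hn, hPrg, hBl, hCir, hOdd, hdis, hZ, hZe, hCZ, hA⟩ := h5
  obtain ⟨hq, hqf, hq2, hY⟩ := hH
  choose x hx1 hx2 using hx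
  have hxC : ∀ i, x i ∈ C i := fun i => by
    have : x i ∈ Y ∩ C i := by rw [hx1 i]; exact mem_singleton_self _
    exact (mem_inter.1 this).2
  have hxY : ∀ i, x i ∈ Y := fun i => by
    have : x i ∈ Y ∩ C i := by rw [hx1 i]; exact mem_singleton_self _
    exact (mem_inter.1 this).1
  have hYx : ∀ i v, v ∈ Y → v ∈ C i → v = x i := fun i v hv hvC => by
    have : v ∈ Y ∩ C i := mem_inter.2 ⟨hv, hvC⟩
    rw [hx1 i] at this
    exact mem_singleton.1 this
  have hqq : ∀ i, ∃ q : V → V, Npr n (C i) (x i) q := fun i =>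
    h1 V n (C i) (hCir i) (hOdd i) (x i) (hxC i)
  choose Q hQ using hqq
  classical
  set P : V → V := fun v => if v ∈ Z then q v else if h : ∃ i, v ∈ C i then Q h.choose v else v
    with hP
  have hPZ : ∀ v ∈ Z, P v = q v := fun v hv => by simp only [hP, if_pos hv]
  have hPC : ∀ i, ∀ v ∈ C i, P v = Q i v := fun i v hv => by
    have h1 : v ∉ Z := fun h => Finset.disjoint_left.1 (hCZ i) hv h
    have h2 : ∃ i, v ∈ C i := ⟨i, hv⟩
    have h3 : h2.choose = i := by
      by_contra h
      exact Finset.disjoint_left.1 (hdis _ _ h) h2.choose_spec hv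
    simp only [hP, if_neg h1, dif_pos h2, h3]
  have hAC : ∀ i, C i ⊆ A := fun i v hv => by
    rw [hA]
    exact mem_union_left _ (mem_biUnion.2 ⟨i, mem_univ _, hv⟩)
  have hAZ : Z ⊆ A := fun v hv => by
    rw [hA]
    exact mem_union_right _ hv
  have hAcase : ∀ v ∈ A, v ∈ Z ∨ ∃ i, v ∈ C i := fun v hv => by
    rw [hA, mem_union, mem_biUnion] at hv
    rcases hv with ⟨i, _, hi⟩ | h
    · exact Or.inr ⟨i, hi⟩
    · exact Or.inl h
  refine h2 V n A t C Z h5' P Y hYA ?_ ?_ ?_ ?_ ?_ ?_ ?_
  · intro v hv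
    rcases hAcase v hv with hvZ | ⟨i, hvi⟩
    · obtain ⟨a1, a2, a3⟩ := hq v hvZ
      rw [hPZ v hvZ, hPZ _ a1]
      exact ⟨hAZ a1, a2, a3⟩
    · obtain ⟨a1, a2, a3, a4⟩ := hQ i v hvi
      rw [hPC i v hvi, hPC i _ a1]
      exact ⟨hAC i a1, a2, a3⟩
  · intro v hv
    refine ⟨(hY v hv).1, ?_⟩
    rcases hAcase v (hYA hv) with hvZ | ⟨i, hvi⟩
    · rw [hPZ v hvZ]
      exact (hY v hv).2 hvZ
    · have hvx := hYx i v hv hvi
      obtain ⟨a1, a2, a3, a4⟩ := hQ i v hvi
      rw [hPC i v hvi, a4.2 hvx]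
      exact hv
  · intro v hv hPv
    rcases hAcase v hv with hvZ | ⟨i, hvi⟩
    · rw [hPZ v hvZ] at hPv
      have h3 := hqf v hvZ hPv
      refine ⟨h3.1, ?_⟩
      rw [hPZ _ (hZ.2.1 v hvZ)]
      exact h3.2
    · rw [hPC i v hvi] at hPv
      have h3 := (hQ i v hvi).2.2.2.1 hPv
      refine ⟨by rw [h3]; exact hxY i, ?_⟩
      have h4 : n v ∈ C i := (hCir i).2.1 v hvi
      rw [hPC i _ h4]
      intro h6
      have h7 := (hQ i (n v) h4).2.2.2.1 h6
      exact hn v (by rw [h7, ← h3])
  · intro i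
    have : (C i).filter (fun v => P v = v) = {x i} := by
      ext v
      rw [mem_filter, mem_singleton]
      constructor
      · rintro ⟨a, b⟩
        rw [hPC i v a] at b
        exact (hQ i v a).2.2.2.1 b
      · intro a
        rw [a]
        refine ⟨hxC i, ?_⟩
        rw [hPC i _ (hxC i)]
        exact (hQ i _ (hxC i)).2.2.2.2 rfl
    unfold fx
    rw [this, card_singleton]
  · have : fx P Z = fx q Z := by
      unfold fx
      congr 1
      apply filter_congr
      intro v hv
      rw [hPZ v hv]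
    rw [this]
    exact hq2
  · intro i
    have h3 := hBl (C i) (hAC i) (hCir i).2.1 (hOdd i)
    unfold dm at h3 ⊢
    have h4 : ((C i).filter fun v => t v ∉ C i).erase (x i) ⊆
        (C i \ Y).filter fun v => t v ∉ C i \ Y := by
      intro v hv
      rw [mem_erase, mem_filter] at hv
      rw [mem_filter, mem_sdiff, mem_sdiff]
      obtain ⟨a, b, c⟩ := hv
      exact ⟨⟨b, fun h => a (hYx i v h b)⟩, fun h => c h.1⟩
    have h5 := card_le_card h4
    have h6 := pred_card_le_card_erase (s := (C i).filter fun v => t v ∉ C i) (a := x i)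
    omega
  · intro i
    set S := (univ.erase i).biUnion C with hS
    have hSA : S ⊆ A := fun v hv => by
      obtain ⟨j, _, hj⟩ := mem_biUnion.1 hv
      exact hAC j hj
    have hSI : Inv n S := fun v hv => by
      obtain ⟨j, hj1, hj⟩ := mem_biUnion.1 hv
      exact mem_biUnion.2 ⟨j, hj1, (hCir j).2.1 v hj⟩
    have hSO : Odd S.card := by
      rw [hS, card_biUnion (fun a _ b _ hab => hdis a b hab), Finset.odd_sum_iff_odd_card_odd]
      have : (univ.erase i).filter (fun j => Odd (C j).card) = univ.erase i := by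
        rw [filter_eq_self]
        intro j _
        exact hOdd j
      rw [this, card_erase_of_mem (mem_univ i), card_univ, Fintype.card_fin]
      decide
    have h3 := hBl S hSA hSI hSO
    unfold dm at h3 ⊢
    have h4 : ∃ v ∈ S.filter (fun v => t v ∉ S), v ∉ Y := by
      by_contra h
      push Not at h
      have h6 : S.filter (fun v => t v ∉ S) ⊆ (univ.erase i).image x := by
        intro v hv
        have hvY := h v hv
        obtain ⟨j, hj1, hj⟩ := mem_biUnion.1 (mem_filter.1 hv).1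
        exact mem_image.2 ⟨j, hj1, (hYx j v hvY hj).symm⟩
      have h7 := card_le_card h6
      have h8 : ((univ.erase i).image x).card ≤ (univ.erase i : Finset (Fin 4)).card :=
        card_image_le
      rw [card_erase_of_mem (mem_univ i), card_univ, Fintype.card_fin] at h8
      omega
    obtain ⟨v, hv, hvY⟩ := h4
    obtain ⟨hvS, htv⟩ := mem_filter.1 hv
    have hvA := hSA hvS
    obtain ⟨b1, b2, b3⟩ := hPrg v hvA
    have htvS : t v ∈ C i ∪ Z := by
      rcases hAcase _ b1 with h | ⟨j, h⟩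
      · exact mem_union_right _ h
      · by_cases hj : j = i
        · rw [← hj]
          exact mem_union_left _ h
        · exact absurd (mem_biUnion.2 ⟨j, mem_erase.2 ⟨hj, mem_univ _⟩, h⟩) htv
    have hvS' : v ∉ C i ∪ Z := by
      obtain ⟨j, hj1, hj⟩ := mem_biUnion.1 hvS
      intro h
      rcases mem_union.1 h with h | h
      · exact Finset.disjoint_left.1 (hdis j i (ne_of_mem_erase hj1)) hj h
      · exact Finset.disjoint_left.1 (hCZ j) hj h
    refine card_pos.2 ⟨t v, ?_⟩
    rw [mem_filter, mem_sdiff, mem_sdiff, b2]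
    refine ⟨⟨htvS, fun h => hvY ?_⟩, fun h => hvS' h.1⟩
    have := (hY _ h).1
    rwa [b2] at this

end Pool.Agent.Helper14.FRD.PMF
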